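import Pool.Agent.H93.HQ.Targets

/-!
# The ratio of two Gamma values
-/

set_option autoImplicit false

namespace Pool.Agent.H47.HQ

open Pool.Agent.H93.HQ

lemma gamma_half_step {x : ℝ} (hx : 0 < x) :
    Real.Gamma (x + 1 / 2) ≤ Real.sqrt x * Real.Gamma x := by
  have hg : 0 < Real.Gamma x := Real.Gamma_pos_of_pos hx
  have h := Real.Gamma_mul_add_mul_le_rpow_Gamma_mul_rpow_Gamma (s := x) (t := x + 1)
    (a := 1 / 2) (b := 1 / 2) hx (by linarith) (by norm_num) (by norm_num) (by norm_num)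
  have e1 : (1 / 2 : ℝ) * x + 1 / 2 * (x + 1) = x + 1 / 2 := by ring
  rw [e1, Real.Gamma_add_one hx.ne', ← Real.sqrt_eq_rpow, ← Real.sqrt_eq_rpow,
    Real.sqrt_mul hx.le] at h
  calc Real.Gamma (x + 1 / 2) ≤ Real.sqrt (Real.Gamma x) * (Real.sqrt x * Real.sqrt (Real.Gamma x)) := h
    _ = Real.sqrt x * (Real.sqrt (Real.Gamma x) * Real.sqrt (Real.Gamma x)) := by ring
    _ = Real.sqrt x * Real.Gamma x := by rw [Real.mul_self_sqrt hg.le]

theorem pf_SA : U_SA := by
  intro x hx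
  have hg : 0 < Real.Gamma x := Real.Gamma_pos_of_pos hx
  have hg2 : 0 < Real.Gamma (x + 1 / 2) := Real.Gamma_pos_of_pos (by linarith)
  have hs : 0 < Real.sqrt x := Real.sqrt_pos.2 hx
  have h1 := gamma_half_step hx
  have h2 := gamma_half_step (x := x + 1 / 2) (by linarith)
  have e : x + 1 / 2 + 1 / 2 = x + 1 := by ring
  rw [e, Real.Gamma_add_one hx.ne'] at h2
  constructor
  · rw [div_le_div_iff₀ hs hg2]
    linarith
  · rw [div_le_div_iff₀ hg2 hx]
    linarith

end Pool.Agent.H47.HQ
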