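import Pool.Agent.H93.HQ.Targets

/-!
# The weak type estimate
-/

set_option autoImplicit false

namespace Pool.Agent.H47.HQ

open MeasureTheory Set Pool.Agent.H80.HS Pool.Agent.H93.HQ
open scoped ENNReal

/-- The far part at one point. -/
lemma wk_far {n : ℕ} (h3 : U_TR) {p : ℝ} (hp : 1 < p) {G : H n → ℝ≥0∞} (hG : Measurable G)
    (F : Set (H n)) (y : H n) :
    ∫⁻ x in F, ENNReal.ofReal (ker p x) * G (mul y x) ≤
      (∫⁻ x in F, ENNReal.ofReal (ker p x) ^ (p / (p - 1))) ^ (1 - 1 / p) *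
        (∫⁻ x, G x ^ p) ^ (1 / p) := by
  have hc : Real.HolderConjugate (p / (p - 1)) p := (Real.HolderConjugate.conjExponent hp).symm
  have hm : Measurable (fun x : H n => G (mul y x)) := hG.comp (continuous_mul y).measurable
  have h := ENNReal.lintegral_mul_le_Lp_mul_Lq (volume.restrict F) hc
    ((measurable_ker (n := n) p).ennreal_ofReal.aemeasurable) hm.aemeasurable
  have e1 : 1 / (p / (p - 1)) = 1 - 1 / p := by
    have : p ≠ 0 := by linarith
    have : p - 1 ≠ 0 := by linarith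
    field_simp
  rw [e1] at h
  refine le_trans h (mul_le_mul' le_rfl (ENNReal.rpow_le_rpow ?_ (by positivity)))
  calc ∫⁻ x in F, G (mul y x) ^ p ≤ ∫⁻ x, G (mul y x) ^ p := setLIntegral_le_lintegral _ _
    _ = ∫⁻ x, G x ^ p := (h3 n (fun x => G x ^ p) y (hG.pow_const p)).1

/-- The near part for one `x`. -/
lemma wk_near {n : ℕ} (h3 : U_TR) {p : ℝ} (hp : 1 < p) {G : H n → ℝ≥0∞} (hG : Measurable G)
    (A : Set (H n)) (x : H n) :
    ∫⁻ y in A, G (mul y x) ≤ volume A ^ (1 - 1 / p) * (∫⁻ x, G x ^ p) ^ (1 / p) := by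
  have hc : Real.HolderConjugate (p / (p - 1)) p := (Real.HolderConjugate.conjExponent hp).symm
  have hcont : Continuous (fun y : H n => mul y x) :=
    continuous_mul'.comp (continuous_id.prodMk continuous_const)
  have hm : Measurable (fun y : H n => G (mul y x)) := hG.comp hcont.measurable
  have h := ENNReal.lintegral_mul_le_Lp_mul_Lq (volume.restrict A) hc
    (f := fun _ => 1) aemeasurable_const hm.aemeasurable
  have e1 : 1 / (p / (p - 1)) = 1 - 1 / p := by
    have : p ≠ 0 := by linarith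
    have : p - 1 ≠ 0 := by linarith
    field_simp
  rw [e1] at h
  have e2 : ∫⁻ y in A, ((fun _ : H n => (1 : ℝ≥0∞)) * fun y : H n => G (mul y x)) y =
      ∫⁻ y in A, G (mul y x) := by
    refine lintegral_congr fun y => ?_
    simp
  rw [e2] at h
  have e3 : ∫⁻ _ in A, (1 : ℝ≥0∞) ^ (p / (p - 1)) = volume A := by
    simp
  rw [e3] at h
  refine le_trans h (mul_le_mul' le_rfl (ENNReal.rpow_le_rpow ?_ (by positivity)))
  calc ∫⁻ y in A, G (mul y x) ^ p ≤ ∫⁻ y, G (mul y x) ^ p := setLIntegral_le_lintegral _ _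
    _ = ∫⁻ x, G x ^ p := (h3 n (fun x => G x ^ p) x (hG.pow_const p)).2

/-- The whole estimate before the choice of the radius. -/
lemma wk_sum {n : ℕ} (hn : 1 ≤ n) (h1 : U_K1) (h2 : U_K2) (h3 : U_TR) {p c ρ : ℝ} (hp : 1 < p)
    (hp2 : p < 2 * n + 2) (hρ : 0 < ρ) {G : H n → ℝ≥0∞} (hG : Measurable G) {A : Set (H n)}
    (hA : MeasurableSet A)
    (hy : ∀ y ∈ A, ENNReal.ofReal (sg n p * c) ≤ ∫⁻ x, ENNReal.ofReal (ker p x) * G (mul y x)) :
    ENNReal.ofReal (sg n p * c) * volume A ≤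
      ENNReal.ofReal (sg n (p - 1) * ρ) * (volume A ^ (1 - 1 / p) * (∫⁻ x, G x ^ p) ^ (1 / p)) +
      (ENNReal.ofReal (sg n p * ((p - 1) / (2 * n + 2 - p)) *
        ρ ^ (-((2 * (n : ℝ) + 2 - p) / (p - 1))))) ^ (1 - 1 / p) *
        (∫⁻ x, G x ^ p) ^ (1 / p) * volume A := by
  have hk : Measurable (fun x : H n => ENNReal.ofReal (ker p x)) :=
    (measurable_ker (n := n) p).ennreal_ofReal
  have hnear : MeasurableSet {x : H n | N x < ρ} :=
    (isOpen_lt continuous_N continuous_const).measurableSet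
  have hcompl : {x : H n | N x < ρ}ᶜ = {x : H n | ρ ≤ N x} := by
    ext x; simp
  have hprod : Measurable (fun q : H n × H n => ENNReal.ofReal (ker p q.2) * G (mul q.1 q.2)) :=
    (hk.comp measurable_snd).mul (hG.comp continuous_mul'.measurable)
  calc ENNReal.ofReal (sg n p * c) * volume A
      = ∫⁻ _ in A, ENNReal.ofReal (sg n p * c) := (setLIntegral_const _ _).symm
    _ ≤ ∫⁻ y in A, ∫⁻ x, ENNReal.ofReal (ker p x) * G (mul y x) :=
        setLIntegral_mono' hA hy
    _ = ∫⁻ y in A, ((∫⁻ x in {x : H n | N x < ρ}, ENNReal.ofReal (ker p x) * G (mul y x)) +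
          ∫⁻ x in {x : H n | ρ ≤ N x}, ENNReal.ofReal (ker p x) * G (mul y x)) := by
        refine lintegral_congr fun y => ?_
        rw [← hcompl, lintegral_add_compl _ hnear]
    _ ≤ ∫⁻ y in A, ((∫⁻ x in {x : H n | N x < ρ}, ENNReal.ofReal (ker p x) * G (mul y x)) +
          (ENNReal.ofReal (sg n p * ((p - 1) / (2 * n + 2 - p)) *
            ρ ^ (-((2 * (n : ℝ) + 2 - p) / (p - 1))))) ^ (1 - 1 / p) *
          (∫⁻ x, G x ^ p) ^ (1 / p)) := by
        refine lintegral_mono fun y => ?_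
        have := wk_far h3 hp hG {x : H n | ρ ≤ N x} y
        rw [h2 n hn p ρ hp hp2 hρ] at this
        gcongr
    _ = (∫⁻ y in A, ∫⁻ x in {x : H n | N x < ρ}, ENNReal.ofReal (ker p x) * G (mul y x)) +
          (ENNReal.ofReal (sg n p * ((p - 1) / (2 * n + 2 - p)) *
            ρ ^ (-((2 * (n : ℝ) + 2 - p) / (p - 1))))) ^ (1 - 1 / p) *
          (∫⁻ x, G x ^ p) ^ (1 / p) * volume A := by
        rw [lintegral_add_right _ measurable_const, setLIntegral_const]
    _ ≤ _ := by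
        gcongr
        rw [lintegral_lintegral_swap hprod.aemeasurable]
        calc ∫⁻ x in {x : H n | N x < ρ}, ∫⁻ y in A, ENNReal.ofReal (ker p x) * G (mul y x)
            ≤ ∫⁻ x in {x : H n | N x < ρ}, ENNReal.ofReal (ker p x) *
                (volume A ^ (1 - 1 / p) * (∫⁻ x, G x ^ p) ^ (1 / p)) := by
              refine lintegral_mono fun x => ?_
              have hcont : Continuous (fun y : H n => mul y x) :=
                continuous_mul'.comp (continuous_id.prodMk continuous_const)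
              have hm : Measurable (fun y : H n => G (mul y x)) := hG.comp hcont.measurable
              simp only
              rw [lintegral_const_mul _ hm]
              have := wk_near h3 hp hG A x
              gcongr
          _ = ENNReal.ofReal (sg n (p - 1) * ρ) *
                (volume A ^ (1 - 1 / p) * (∫⁻ x, G x ^ p) ^ (1 / p)) := by
              rw [lintegral_mul_const _ hk, h1 n hn p ρ hp hρ]

/-- The computation with real numbers. -/
lemma wk_real {Q p B c v g s1 s2 : ℝ} (hp : 1 < p) (hpQ : p < Q) (hB : 0 < B) (hv : 0 < v)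
    (hs1 : 0 < s1)
    (h : s1 * c * v ≤ s2 * (v / B) ^ (1 / Q) * (v ^ (1 - 1 / p) * g) +
      (s1 * ((p - 1) / (Q - p)) * ((v / B) ^ (1 / Q)) ^ (-((Q - p) / (p - 1)))) ^ (1 - 1 / p) *
        g * v) :
    c * v ^ ((Q - p) / (Q * p)) ≤
      s1⁻¹ * ((s1 * (p - 1) / (Q - p)) ^ (1 - 1 / p) * B ^ ((Q - p) / (Q * p)) +
        s2 * B ^ (-(1 / Q))) * g := by
  have hp0 : 0 < p := by linarith
  have hQ : 0 < Q := by linarith
  have hp1 : 0 < p - 1 := by linarith
  have hQp : 0 < Q - p := by linarith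
  have hvB : 0 < v / B := div_pos hv hB
  -- first product
  have e1 : (v / B) ^ (1 / Q) * v ^ (1 - 1 / p) =
      v ^ (1 - (Q - p) / (Q * p)) * B ^ (-(1 / Q)) := by
    rw [Real.div_rpow hv.le hB.le, Real.rpow_neg hB.le, div_mul_eq_mul_div,
      ← Real.rpow_add hv, div_eq_mul_inv]
    congr 2
    field_simp
    ring
  -- second product
  have e2 : (s1 * ((p - 1) / (Q - p)) * ((v / B) ^ (1 / Q)) ^ (-((Q - p) / (p - 1)))) ^
      (1 - 1 / p) * v = (s1 * (p - 1) / (Q - p)) ^ (1 - 1 / p) *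
        (v ^ (1 - (Q - p) / (Q * p)) * B ^ ((Q - p) / (Q * p))) := by
    rw [Real.mul_rpow (by positivity) (by positivity), ← mul_div_assoc, ← Real.rpow_mul hvB.le,
      ← Real.rpow_mul hvB.le]
    have e3 : 1 / Q * -((Q - p) / (p - 1)) * (1 - 1 / p) = -((Q - p) / (Q * p)) := by
      field_simp
    rw [e3, Real.rpow_neg hvB.le, Real.div_rpow hv.le hB.le, inv_div, mul_assoc,
      Real.rpow_sub hv, Real.rpow_one]
    congr 1
    have : v ^ ((Q - p) / (Q * p)) ≠ 0 := (Real.rpow_pos_of_pos hv _).ne'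
    field_simp
  have hv1 : 0 < v ^ (1 - (Q - p) / (Q * p)) := Real.rpow_pos_of_pos hv _
  have e4 : v = v ^ (1 - (Q - p) / (Q * p)) * v ^ ((Q - p) / (Q * p)) := by
    rw [← Real.rpow_add hv]
    simp
  have h' : s1 * c * v ≤ v ^ (1 - (Q - p) / (Q * p)) *
      (((s1 * (p - 1) / (Q - p)) ^ (1 - 1 / p) * B ^ ((Q - p) / (Q * p)) +
        s2 * B ^ (-(1 / Q))) * g) := by
    refine h.trans (le_of_eq ?_)
    calc s2 * (v / B) ^ (1 / Q) * (v ^ (1 - 1 / p) * g) +
        (s1 * ((p - 1) / (Q - p)) * ((v / B) ^ (1 / Q)) ^ (-((Q - p) / (p - 1)))) ^ (1 - 1 / p) *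
          g * v = s2 * ((v / B) ^ (1 / Q) * v ^ (1 - 1 / p)) * g +
        ((s1 * ((p - 1) / (Q - p)) * ((v / B) ^ (1 / Q)) ^ (-((Q - p) / (p - 1)))) ^ (1 - 1 / p) *
          v) * g := by ring
      _ = _ := by rw [e1, e2]; ring
  have h'' : v ^ (1 - (Q - p) / (Q * p)) * (s1 * c * v ^ ((Q - p) / (Q * p))) ≤
      v ^ (1 - (Q - p) / (Q * p)) *
      (((s1 * (p - 1) / (Q - p)) ^ (1 - 1 / p) * B ^ ((Q - p) / (Q * p)) +
        s2 * B ^ (-(1 / Q))) * g) := by
    refine le_trans (le_of_eq ?_) h'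
    conv_rhs => rw [e4]
    ring
  have h3 := le_of_mul_le_mul_left h'' hv1
  have h4 : s1 * (c * v ^ ((Q - p) / (Q * p))) ≤
      ((s1 * (p - 1) / (Q - p)) ^ (1 - 1 / p) * B ^ ((Q - p) / (Q * p)) +
        s2 * B ^ (-(1 / Q))) * g := by linarith
  calc c * v ^ ((Q - p) / (Q * p)) = s1⁻¹ * (s1 * (c * v ^ ((Q - p) / (Q * p)))) := by
        field_simp
    _ ≤ s1⁻¹ * (((s1 * (p - 1) / (Q - p)) ^ (1 - 1 / p) * B ^ ((Q - p) / (Q * p)) +
        s2 * B ^ (-(1 / Q))) * g) := by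
        exact mul_le_mul_of_nonneg_left h4 (inv_nonneg.2 hs1.le)
    _ = _ := by ring

theorem pf_WK (h1 : U_K1) (h2 : U_K2) (h3 : U_TR) : U_WK := by
  intro n hn p B c G A hp hp2 hB hc hG hA hAf hy
  have hn0 : (0 : ℝ) < n := by exact_mod_cast hn
  have hp0 : 0 < p := by linarith
  have hp1 : 0 < p - 1 := by linarith
  have hQp : 0 < 2 * (n : ℝ) + 2 - p := by linarith
  have hQ : 0 < 2 * (n : ℝ) + 2 := by linarith
  have hs1 : 0 < sg n p := sg_pos hn hp0.le
  have hs2 : 0 < sg n (p - 1) := sg_pos hn hp1.le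
  have hexp : 0 < (2 * (n : ℝ) + 2 - p) / ((2 * n + 2) * p) := by positivity
  have hD : 0 < DD n p B := by
    unfold DD
    have a1 : 0 < (sg n p * (p - 1) / (2 * n + 2 - p)) ^ (1 - 1 / p) :=
      Real.rpow_pos_of_pos (by positivity) _
    have a2 : 0 < B ^ ((2 * (n : ℝ) + 2 - p) / ((2 * n + 2) * p)) := Real.rpow_pos_of_pos hB _
    have a3 : 0 < B ^ (-(1 / (2 * (n : ℝ) + 2))) := Real.rpow_pos_of_pos hB _
    positivity
  rcases eq_or_ne (volume A) 0 with hV0 | hV0
  · rw [hV0, ENNReal.zero_rpow_of_pos hexp, mul_zero]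
    exact bot_le
  rcases eq_or_ne ((∫⁻ x, G x ^ p) ^ (1 / p)) ⊤ with hG0 | hG0
  · rw [hG0, ENNReal.mul_top (ENNReal.ofReal_pos.2 hD).ne']
    exact le_top
  have hv : 0 < (volume A).toReal := ENNReal.toReal_pos hV0 hAf
  have hg : 0 ≤ ((∫⁻ x, G x ^ p) ^ (1 / p)).toReal := ENNReal.toReal_nonneg
  set v := (volume A).toReal with hvdef
  set g := ((∫⁻ x, G x ^ p) ^ (1 / p)).toReal with hgdef
  have hV : volume A = ENNReal.ofReal v := (ENNReal.ofReal_toReal hAf).symm
  have hGG : (∫⁻ x, G x ^ p) ^ (1 / p) = ENNReal.ofReal g := (ENNReal.ofReal_toReal hG0).symm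
  have hρ : 0 < (v / B) ^ (1 / (2 * (n : ℝ) + 2)) := Real.rpow_pos_of_pos (div_pos hv hB) _
  have hmain := wk_sum hn h1 h2 h3 hp hp2 hρ hG hA hy
  have hpp : 0 ≤ 1 - 1 / p := by
    rw [sub_nonneg, div_le_one hp0]; exact hp.le
  rw [hGG, hV, ENNReal.ofReal_rpow_of_pos hv,
    ENNReal.ofReal_rpow_of_nonneg (by positivity) hpp,
    ← ENNReal.ofReal_mul (by positivity), ← ENNReal.ofReal_mul (by positivity),
    ← ENNReal.ofReal_mul (by positivity), ← ENNReal.ofReal_mul (by positivity),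
    ← ENNReal.ofReal_mul (by positivity),
    ← ENNReal.ofReal_add (by positivity) (by positivity),
    ENNReal.ofReal_le_ofReal_iff (by positivity)] at hmain
  rw [hGG, hV, ENNReal.ofReal_rpow_of_pos hv, ← ENNReal.ofReal_mul hc.le,
    ← ENNReal.ofReal_mul hD.le]
  refine ENNReal.ofReal_le_ofReal ?_
  have := wk_real hp hp2 hB hv hs1 hmain
  unfold DD
  exact this

end Pool.Agent.H47.HQ
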