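import Pool.Agent.H93.HQ.Targets

/-!
# The value of `sg n Q`
-/

set_option autoImplicit false

namespace Pool.Agent.H47.HQ

open Pool.Agent.H93.HQ

theorem pf_SQ : U_SQ := by
  intro n hn
  unfold sg
  have e1 : ((2 * (n : ℝ) + (2 * n + 2)) / 4) = n + 1 / 2 := by ring
  have e2 : ((2 * (n : ℝ) + 2 + (2 * n + 2)) / 4) = n + 1 := by ring
  rw [e1, e2, Real.Gamma_nat_eq_factorial]
  have e3 : Real.Gamma (n : ℝ) = ((n - 1).factorial : ℝ) := by
    obtain ⟨m, rfl⟩ : ∃ m, n = m + 1 := ⟨n - 1, by omega⟩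
    have h := Real.Gamma_nat_eq_factorial m
    push_cast
    rw [h]
  rw [e3]
  have h1 : ((n - 1).factorial : ℝ) ≠ 0 := by exact_mod_cast (Nat.factorial_ne_zero _)
  have h2 : (n.factorial : ℝ) ≠ 0 := by exact_mod_cast (Nat.factorial_ne_zero _)
  field_simp

end Pool.Agent.H47.HQ
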